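import Pool.Agent.Helper17.SA.St3

/-!
# Project SA (MP_21f9f3), module AUT: automorphisms of alternating groups are induced by permutations
-/

set_option autoImplicit false

namespace Pool.Agent.Helper90.SA

open Equiv Pool.Agent.Helper17.SA

section gen

variable {α : Type} [Fintype α] [DecidableEq α]

/-- the cycle `a → b → c → a` -/
def c3 (a b c : α) : Perm α := swap a c * swap a b

omit [Fintype α] in
theorem c3_a (a b c : α) (ab : a ≠ b) (bc : b ≠ c) : c3 a b c a = b := by
  unfold c3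
  rw [Perm.mul_apply, swap_apply_left, swap_apply_of_ne_of_ne ab.symm bc]

omit [Fintype α] in
theorem c3_b (a b c : α) : c3 a b c b = c := by
  unfold c3
  rw [Perm.mul_apply, swap_apply_right, swap_apply_left]

omit [Fintype α] in
theorem c3_c (a b c : α) (ac : a ≠ c) (bc : b ≠ c) : c3 a b c c = a := by
  unfold c3
  rw [Perm.mul_apply, swap_apply_of_ne_of_ne ac.symm bc.symm, swap_apply_right]

omit [Fintype α] in
theorem c3_inv (a b c : α) : (c3 a b c)⁻¹ = c3 a c b := by
  unfold c3
  rw [mul_inv_rev, swap_inv, swap_inv]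

omit [Fintype α] in
theorem c3_mul (a b c d : α) : c3 a c d = c3 a b d * (c3 a b c)⁻¹ := by
  rw [c3_inv]
  unfold c3
  rw [mul_assoc, ← mul_assoc (swap a b), swap_mul_self, one_mul]

omit [Fintype α] in
theorem c3_alt (a b c : α) (ac : a ≠ c) (bc : b ≠ c) : swap a b * swap b c = c3 a b c := by
  unfold c3
  rw [swap_mul_eq_mul_swap (swap a b) a c, swap_inv, swap_apply_left,
    swap_apply_of_ne_of_ne ac.symm bc.symm]

omit [Fintype α] in
theorem c3_rot (a b c : α) (ac : a ≠ c) (bc : b ≠ c) : c3 b c a = c3 a b c := by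
  rw [← c3_alt a b c ac bc]
  unfold c3
  rw [swap_comm b a]

omit [Fintype α] in
theorem c3_conj (τ : Perm α) (a b c : α) : c3 (τ a) (τ b) (τ c) = τ * c3 a b c * τ⁻¹ := by
  unfold c3
  rw [swap_apply_apply, swap_apply_apply]
  group

theorem c3_three (a b c : α) (ab : a ≠ b) (ac : a ≠ c) (bc : b ≠ c) : (c3 a b c).IsThreeCycle :=
  Perm.isThreeCycle_swap_mul_swap_same ac ab bc.symm

theorem supp (g : Perm α) (hg : g.IsThreeCycle) (a : α) (ha : g a ≠ a) (u : α) (hu : g u ≠ u) :
    u = a ∨ u = g a ∨ u = g (g a) := by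
  have h := hg.support_eq_iff_mem_support.mpr (Perm.mem_support.mpr ha)
  have h2 : u ∈ g.support := Perm.mem_support.mpr hu
  rw [h] at h2
  simpa using h2

theorem nod (g : Perm α) (hg : g.IsThreeCycle) (a : α) (ha : g a ≠ a) :
    a ≠ g a ∧ a ≠ g (g a) ∧ g a ≠ g (g a) := by
  have h := hg.nodup_iff_mem_support.mpr (Perm.mem_support.mpr ha)
  simp only [List.nodup_cons, List.mem_cons, List.not_mem_nil, or_false, not_or,
    not_false_eq_true, and_true, List.nodup_nil] at h
  exact ⟨h.1.1, h.1.2, h.2⟩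

theorem cube (g : Perm α) (hg : g.IsThreeCycle) (a : α) : g (g (g a)) = a := by
  have h : (g ^ 3) a = a := by
    rw [← hg.orderOf, pow_orderOf_eq_one]
    rfl
  simpa [pow_succ] using h

theorem eq_c3 (g : Perm α) (hg : g.IsThreeCycle) (a : α) (ha : g a ≠ a) :
    g = c3 a (g a) (g (g a)) := by
  obtain ⟨h1, h2, h3⟩ := nod g hg a ha
  rw [← c3_alt _ _ _ h2 h3]
  exact hg.eq_swap_mul_swap_iff_mem_support.mpr (Perm.mem_support.mpr ha)

/-- two `3`-cycles with a product of order two have a common directed edge -/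
theorem edge (σ ρ : Perm α) (hσ : σ.IsThreeCycle) (hρ : ρ.IsThreeCycle)
    (h2 : (σ * ρ) * (σ * ρ) = 1) (h1 : σ * ρ ≠ 1) : ∃ q, σ q ≠ q ∧ ρ q = σ q := by
  by_contra hcon
  push Not at hcon
  have hA : ∀ x, σ (ρ (σ (ρ x))) = x := by
    intro x
    have := congrArg (fun g : Perm α => g x) h2
    simpa using this
  have hB : ∀ x, σ (ρ (σ x)) = ρ (ρ x) := by
    intro x
    have := hA (ρ (ρ x))
    rwa [cube ρ hρ] at this
  have hC : ∀ p, ρ p ≠ p → σ p ≠ p := by
    intro p hp hs
    have e := hB p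
    rw [hs] at e
    have n := nod ρ hρ p hp
    refine hcon (ρ p) ?_ e.symm
    rw [e]
    exact n.2.2.symm
  obtain ⟨p, hp⟩ : ∃ p, ρ p ≠ p := by
    by_contra h
    push Not at h
    exact hρ.ne_one (Equiv.ext h)
  have nρ := nod ρ hρ p hp
  have hp1 : σ p ≠ p := hC p hp
  have nσ := nod σ hσ p hp1
  have h3 : ρ (ρ p) ≠ ρ p := nρ.2.2.symm
  have hp2 : σ (ρ p) ≠ ρ p := hC (ρ p) h3
  have h4 : ρ (ρ (ρ p)) ≠ ρ (ρ p) := by
    rw [cube ρ hρ]
    exact nρ.2.1
  have hp3 : σ (ρ (ρ p)) ≠ ρ (ρ p) := hC _ h4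
  have a1 := supp σ hσ p hp1 (ρ p) hp2
  have a2 := supp σ hσ p hp1 (ρ (ρ p)) hp3
  rcases a1 with a1 | a1 | a1
  · exact hp a1
  · exact hcon p hp1 a1
  · rcases a2 with a2 | a2 | a2
    · exact nρ.2.1 a2.symm
    · apply h1
      have e1 := eq_c3 ρ hρ p hp
      rw [a2, a1] at e1
      have e2 := eq_c3 σ hσ p hp1
      have e3 : ρ = σ⁻¹ := by
        calc ρ = c3 p (σ (σ p)) (σ p) := e1
          _ = (c3 p (σ p) (σ (σ p)))⁻¹ := (c3_inv _ _ _).symm
          _ = σ⁻¹ := by rw [← e2]
      rw [e3, mul_inv_cancel]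
    · exact nρ.2.2 (a1.trans a2.symm)

/-- the claim on a third cycle -/
theorem third (d2 d3 d : Perm α) (h2 : d2.IsThreeCycle) (h3 : d3.IsThreeCycle)
    (h : d.IsThreeCycle) (x : α) (hx : d2 x ≠ x) (hx3 : d3 x = d2 x)
    (hzw : d2 (d2 x) ≠ d3 (d3 x)) (e2 : ∃ q, d2 q ≠ q ∧ d q = d2 q)
    (e3 : ∃ q, d3 q ≠ q ∧ d q = d3 q) : d x = d2 x := by
  obtain ⟨q, hq, hq'⟩ := e2
  obtain ⟨r, hr, hr'⟩ := e3
  have hx4 : d3 x ≠ x := by rw [hx3]; exact hx
  have n2 := nod d2 h2 x hx
  have n3 := nod d3 h3 x hx4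
  rw [hx3] at n3 hzw
  rcases supp d2 h2 x hx q hq with a | a | a
  · rw [a] at hq'
    exact hq'
  · rcases supp d3 h3 x hx4 r hr with b | b | b
    · rw [b, hx3] at hr'
      exact hr'
    · -- `d y = z`, `d y = w`
      rw [b, hx3] at hr'
      rw [a] at hq'
      exact absurd (hq'.symm.trans hr') hzw
    · -- `d y = z`, `d w = x`
      rw [a] at hq'
      rw [b, cube d3 h3, hx3] at hr'
      have hy : d (d2 x) ≠ d2 x := by rw [hq']; exact n2.2.2.symm
      have hw : d (d3 (d2 x)) ≠ d3 (d2 x) := by rw [hr']; exact n3.2.1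
      rcases supp d h (d2 x) hy _ hw with c | c | c
      · exact absurd c.symm n3.2.2
      · rw [hq'] at c
        exact absurd c.symm hzw
      · rw [c, cube d h] at hr'
        exact absurd hr' hx
  · rcases supp d3 h3 x hx4 r hr with b | b | b
    · rw [b, hx3] at hr'
      exact hr'
    · -- `d z = x`, `d y = w`
      rw [b, hx3] at hr'
      rw [a, cube d2 h2] at hq'
      have hy : d (d2 x) ≠ d2 x := by rw [hr']; exact n3.2.2.symm
      have hz : d (d2 (d2 x)) ≠ d2 (d2 x) := by rw [hq']; exact n2.2.1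
      rcases supp d h _ hz _ hy with c | c | c
      · exact absurd c n2.2.2
      · rw [hq'] at c
        exact absurd c hx
      · rw [hq'] at c
        exact c.symm
    · -- `d z = x`, `d w = x`
      rw [a, cube d2 h2] at hq'
      rw [b, cube d3 h3, hx3] at hr'
      exact absurd (d.injective (hq'.trans hr'.symm)) hzw

omit [Fintype α] in
/-- the products -/
theorem prod_c3 (a b i j : α) (ab : a ≠ b) (ai : a ≠ i) (aj : a ≠ j) (bi : b ≠ i) (bj : b ≠ j)
    (ij : i ≠ j) : (c3 a b i * c3 a b j) * (c3 a b i * c3 a b j) = 1 ∧ c3 a b i * c3 a b j ≠ 1 := by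
  have e : c3 a b i * c3 a b j = swap a i * swap b j := by
    unfold c3
    have : swap b j = swap a b * swap a j * swap a b := by
      have h := swap_apply_apply (swap a b) a j
      rw [swap_apply_left, swap_apply_of_ne_of_ne aj.symm bj.symm, swap_inv] at h
      exact h
    rw [this]
    group
  have hc : swap a i * swap b j = swap b j * swap a i := by
    rw [mul_swap_eq_swap_mul, swap_apply_of_ne_of_ne ab.symm bi,
      swap_apply_of_ne_of_ne aj.symm ij.symm]
  rw [e]
  constructor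
  · calc (swap a i * swap b j) * (swap a i * swap b j)
        = (swap a i * swap b j) * (swap b j * swap a i) := by rw [hc]
      _ = 1 := by
        rw [mul_assoc, ← mul_assoc (swap b j), swap_mul_self, one_mul, swap_mul_self]
  · intro h
    have h1 := congrArg (fun g : Perm α => g a) h
    simp only [Perm.mul_apply, Perm.one_apply] at h1
    rw [swap_apply_of_ne_of_ne ab aj, swap_apply_left] at h1
    exact ai h1.symm

/-- a subgroup that contains all cycles `o → e → i` contains all `3`-cycles -/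
theorem all_three (K : Subgroup (Perm α)) (o e : α)
    (hK : ∀ i, i ≠ o → i ≠ e → c3 o e i ∈ K) (g : Perm α) (hg : g.IsThreeCycle) : g ∈ K := by
  have r1 : ∀ a b c : α, a ≠ c → b ≠ c → c3 a b c ∈ K → c3 b c a ∈ K := by
    intro a b c ac bc h
    rw [c3_rot a b c ac bc]
    exact h
  have r2 : ∀ a b c : α, c3 a b c ∈ K → c3 a c b ∈ K := by
    intro a b c h
    rw [← c3_inv]
    exact K.inv_mem h
  have r3 : ∀ a b c d : α, c3 a b c ∈ K → c3 a b d ∈ K → c3 a c d ∈ K := by
    intro a b c d h h'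
    rw [c3_mul a b c d]
    exact K.mul_mem h' (K.inv_mem h)
  -- the cycles that contain `o`
  have s1 : ∀ i j : α, i ≠ o → j ≠ o → i ≠ j → c3 o i j ∈ K := by
    intro i j io jo ij
    by_cases ie : i = e
    · rw [ie]
      exact hK j jo (by rw [← ie]; exact ij.symm)
    · by_cases je : j = e
      · rw [je]
        exact r2 _ _ _ (hK i io ie)
      · exact r3 o e i j (hK i io ie) (hK j jo je)
  have s2 : ∀ i j k : α, i ≠ j → i ≠ k → j ≠ k → c3 i j k ∈ K := by
    intro i j k ij ik jk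
    by_cases io : i = o
    · rw [io] at ij ik ⊢
      exact s1 j k ij.symm ik.symm jk
    · by_cases jo : j = o
      · rw [jo] at ij jk ⊢
        -- `c3 i o k`
        have := s1 k i jk.symm io ik.symm
        -- `o → k → i → o` is the cycle `i → o → k`
        exact r1 k i o jk.symm io (r1 o k i (Ne.symm io) ik.symm this)
      · by_cases ko : k = o
        · rw [ko] at ik jk ⊢
          have := s1 i j io jo ij
          exact r1 o i j (Ne.symm jo) ij this
        · -- none is `o`
          have h1 : c3 i o j ∈ K := by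
            have := s1 j i jo io ij.symm
            exact r1 j i o jo io (r1 o j i (Ne.symm io) ij.symm this)
          have h2 : c3 i o k ∈ K := by
            have := s1 k i ko io ik.symm
            exact r1 k i o ko io (r1 o k i (Ne.symm io) ik.symm this)
          exact r3 i o j k h1 h2
  obtain ⟨a, ha⟩ : ∃ a, g a ≠ a := by
    by_contra h
    push Not at h
    exact hg.ne_one (Equiv.ext h)
  obtain ⟨h1, h2, h3⟩ := nod g hg a ha
  rw [eq_c3 g hg a ha]
  exact s2 _ _ _ h1 h2 h3

end gen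

theorem pAUT : StAU1 → StAUT := by
  intro hAU m φ hm
  set o : Fin m := ⟨0, by omega⟩ with ho
  set e : Fin m := ⟨1, by omega⟩ with he
  set i2 : Fin m := ⟨2, by omega⟩ with hi2
  set i3 : Fin m := ⟨3, by omega⟩ with hi3
  have oe : o ≠ e := by rw [ho, he]; simp [Fin.ext_iff]
  have o2 : o ≠ i2 := by rw [ho, hi2]; simp [Fin.ext_iff]
  have e2 : e ≠ i2 := by rw [he, hi2]; simp [Fin.ext_iff]
  have o3 : o ≠ i3 := by rw [ho, hi3]; simp [Fin.ext_iff]
  have e3 : e ≠ i3 := by rw [he, hi3]; simp [Fin.ext_iff]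
  have h23 : i2 ≠ i3 := by rw [hi2, hi3]; simp [Fin.ext_iff]
  clear_value o e i2 i3
  have hmem : ∀ i : Fin m, o ≠ i → e ≠ i → c3 o e i ∈ alternatingGroup (Fin m) :=
    fun i h1 h2 => (c3_three o e i oe h1 h2).mem_alternatingGroup
  -- the images of the cycles
  have key : ∀ i : Fin m, ∃ d : Perm (Fin m), ∀ (h1 : o ≠ i) (h2 : e ≠ i),
      (φ ⟨c3 o e i, hmem i h1 h2⟩ : Perm (Fin m)) = d := by
    intro i
    by_cases h : o ≠ i ∧ e ≠ i
    · exact ⟨φ ⟨c3 o e i, hmem i h.1 h.2⟩, fun _ _ => rfl⟩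
    · exact ⟨1, fun h1 h2 => absurd ⟨h1, h2⟩ h⟩
  choose d hd using key
  have dT : ∀ i, o ≠ i → e ≠ i → (d i).IsThreeCycle := by
    intro i h1 h2
    rw [← hd i h1 h2]
    exact hAU m φ hm _ (c3_three o e i oe h1 h2)
  have dprod : ∀ i j, o ≠ i → e ≠ i → o ≠ j → e ≠ j → i ≠ j →
      (d i * d j) * (d i * d j) = 1 ∧ d i * d j ≠ 1 := by
    intro i j h1 h2 h3 h4 hij
    have hp := prod_c3 o e i j oe h1 h3 h2 h4 hij
    rw [← hd i h1 h2, ← hd j h3 h4]
    constructor
    · have : ((⟨c3 o e i, hmem i h1 h2⟩ : alternatingGroup (Fin m)) * ⟨c3 o e j, hmem j h3 h4⟩) *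
          (⟨c3 o e i, hmem i h1 h2⟩ * ⟨c3 o e j, hmem j h3 h4⟩) = 1 := Subtype.ext hp.1
      have h5 := congrArg φ this
      rw [map_one, map_mul, map_mul] at h5
      exact congrArg Subtype.val h5
    · intro h
      apply hp.2
      have h6 : φ (⟨c3 o e i, hmem i h1 h2⟩ * ⟨c3 o e j, hmem j h3 h4⟩) = 1 := by
        rw [map_mul]
        exact Subtype.ext h
      have h7 : (⟨c3 o e i, hmem i h1 h2⟩ * ⟨c3 o e j, hmem j h3 h4⟩ :
          alternatingGroup (Fin m)) = 1 := by
        apply φ.injective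
        rw [h6, map_one]
      exact congrArg Subtype.val h7
  have dinj : ∀ i j, o ≠ i → e ≠ i → o ≠ j → e ≠ j → d i = d j → i = j := by
    intro i j h1 h2 h3 h4 h
    rw [← hd i h1 h2, ← hd j h3 h4] at h
    have h5 := φ.injective (Subtype.ext h)
    have h6 : c3 o e i = c3 o e j := congrArg Subtype.val h5
    have h7 := congrArg (fun g : Perm (Fin m) => g e) h6
    simpa [c3_b] using h7
  -- the common directed edge
  have dedge : ∀ i j, o ≠ i → e ≠ i → o ≠ j → e ≠ j → i ≠ j → ∃ q, d i q ≠ q ∧ d j q = d i q := by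
    intro i j h1 h2 h3 h4 hij
    have hp := dprod i j h1 h2 h3 h4 hij
    exact edge (d i) (d j) (dT i h1 h2) (dT j h3 h4) hp.1 hp.2
  obtain ⟨x, hx, hx3⟩ := dedge i2 i3 o2 e2 o3 e3 h23
  obtain ⟨y, hy⟩ : ∃ y, y = d i2 x := ⟨_, rfl⟩
  have hzw : d i2 (d i2 x) ≠ d i3 (d i3 x) := by
    intro h
    apply h23
    apply dinj i2 i3 o2 e2 o3 e3
    rw [eq_c3 (d i2) (dT i2 o2 e2) x hx, eq_c3 (d i3) (dT i3 o3 e3) x (by rw [hx3]; exact hx), h, hx3]
  have hall : ∀ i, o ≠ i → e ≠ i → d i x = y := by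
    intro i h1 h2
    by_cases c2 : i = i2
    · rw [c2, hy]
    · by_cases c3' : i = i3
      · rw [c3', hx3, hy]
      · rw [hy]
        exact third (d i2) (d i3) (d i) (dT i2 o2 e2) (dT i3 o3 e3) (dT i h1 h2) x hx hx3 hzw
          (dedge i2 i o2 e2 h1 h2 (Ne.symm c2)) (dedge i3 i o3 e3 h1 h2 (Ne.symm c3'))
  have hyx : y ≠ x := by rw [hy]; exact hx
  have hform : ∀ i, o ≠ i → e ≠ i → d i = c3 x y (d i y) := by
    intro i h1 h2
    have h := hall i h1 h2
    have hm' : d i x ≠ x := by rw [h]; exact hyx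
    have := eq_c3 (d i) (dT i h1 h2) x hm'
    rw [h] at this
    exact this
  have hne : ∀ i, o ≠ i → e ≠ i → x ≠ d i y ∧ y ≠ d i y := by
    intro i h1 h2
    have h := hall i h1 h2
    have hm' : d i x ≠ x := by rw [h]; exact hyx
    have := nod (d i) (dT i h1 h2) x hm'
    rw [h] at this
    exact ⟨this.2.1, this.2.2⟩
  -- the permutation
  obtain ⟨t, ht⟩ : ∃ t : Fin m → Fin m, t = fun i => if o = i then x else if e = i then y else d i y :=
    ⟨_, rfl⟩
  have t_o : t o = x := by rw [ht]; simp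
  have te : t e = y := by rw [ht]; simp [oe]
  have ti : ∀ i, o ≠ i → e ≠ i → t i = d i y := by
    intro i h1 h2
    rw [ht]
    simp [h1, h2]
  have tinj : Function.Injective t := by
    intro i j hij
    by_cases i1 : o = i
    · rw [← i1, t_o] at hij
      by_cases j1 : o = j
      · rw [← i1, ← j1]
      · by_cases j2 : e = j
        · rw [← j2, te] at hij
          exact absurd hij.symm hyx
        · rw [ti j j1 j2] at hij
          exact absurd hij (hne j j1 j2).1
    · by_cases i2' : e = i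
      · rw [← i2', te] at hij
        by_cases j1 : o = j
        · rw [← j1, t_o] at hij
          exact absurd hij hyx
        · by_cases j2 : e = j
          · rw [← i2', ← j2]
          · rw [ti j j1 j2] at hij
            exact absurd hij (hne j j1 j2).2
      · rw [ti i i1 i2'] at hij
        by_cases j1 : o = j
        · rw [← j1, t_o] at hij
          exact absurd hij.symm (hne i i1 i2').1
        · by_cases j2 : e = j
          · rw [← j2, te] at hij
            exact absurd hij.symm (hne i i1 i2').2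
          · rw [ti j j1 j2] at hij
            apply dinj i j i1 i2' j1 j2
            rw [hform i i1 i2', hform j j1 j2, hij]
  let τ : Perm (Fin m) := Equiv.ofBijective t (Finite.injective_iff_bijective.mp tinj)
  have hτ : ∀ i, τ i = t i := fun i => rfl
  refine ⟨τ, ?_⟩
  -- the two homomorphisms
  let f : alternatingGroup (Fin m) →* Perm (Fin m) :=
    (alternatingGroup (Fin m)).subtype.comp φ.toMonoidHom
  let g : alternatingGroup (Fin m) →* Perm (Fin m) :=
    (MulAut.conj τ).toMonoidHom.comp (alternatingGroup (Fin m)).subtype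
  have hK : ∀ s : Perm (Fin m), s.IsThreeCycle →
      s ∈ (MonoidHom.eqLocus f g).map (alternatingGroup (Fin m)).subtype := by
    apply all_three _ o e
    intro i h1 h2
    rw [Subgroup.mem_map]
    refine ⟨⟨c3 o e i, hmem i h1.symm h2.symm⟩, ?_, rfl⟩
    show (φ ⟨c3 o e i, hmem i h1.symm h2.symm⟩ : Perm (Fin m)) = τ * c3 o e i * τ⁻¹
    rw [hd i h1.symm h2.symm, ← c3_conj, hτ, hτ, hτ, t_o, te, ti i h1.symm h2.symm]
    exact hform i h1.symm h2.symm
  intro a
  have ha : (a : Perm (Fin m)) ∈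
      (MonoidHom.eqLocus f g).map (alternatingGroup (Fin m)).subtype := by
    have h1 : Subgroup.closure {σ : Perm (Fin m) | σ.IsThreeCycle} ≤
        (MonoidHom.eqLocus f g).map (alternatingGroup (Fin m)).subtype := by
      rw [Subgroup.closure_le]
      intro s hs
      exact hK s hs
    have h2 : (a : Perm (Fin m)) ∈ Subgroup.closure {σ : Perm (Fin m) | σ.IsThreeCycle} := by
      rw [Perm.closure_three_cycles_eq_alternating]
      exact a.2
    exact h1 h2
  rw [Subgroup.mem_map] at ha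
  obtain ⟨b, hb, hba⟩ := ha
  have hab : b = a := Subtype.ext hba
  rw [hab] at hb
  exact hb

end Pool.Agent.Helper90.SA
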